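import Pool.Agent.CRT.Stmts

/-!
# Squad CRT, row SUA: sublevel sets of quadratic polynomials
-/

namespace Pool.Agent.CRT.H37

open Set Filter Topology MeasureTheory Pool.Agent.CRT

/-- three separated points with small values give small coefficients -/
theorem coef (d : Co) (s w x y z : ℝ) (hs : 0 < s) (hw : 0 < w) (hw2 : w ≤ 1 / 2)
    (hx : |x| ≤ 1) (hy : |y| ≤ 1) (h1 : w ≤ y - x) (h2 : w ≤ z - y)
    (ex : |ev d x| ≤ s) (ey : |ev d y| ≤ s) (ez : |ev d z| ≤ s) : Nm d * w ^ 2 ≤ 8 * s := by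
  obtain ⟨d0, d1, d2⟩ := d
  simp only [ev] at ex ey ez
  rw [abs_le] at ex ey ez
  -- leading coefficient
  have k2 : |d2| * w ^ 2 ≤ 2 * s := by
    have e1 : d2 * ((y - x) * (z - y)) * ((y - x) + (z - y)) =
        (y - x) * ((d0 + d1 * z + d2 * z ^ 2) - (d0 + d1 * y + d2 * y ^ 2)) -
        (z - y) * ((d0 + d1 * y + d2 * y ^ 2) - (d0 + d1 * x + d2 * x ^ 2)) := by ring
    have hab : 0 < (y - x) + (z - y) := by linarith
    have e2 : |d2 * ((y - x) * (z - y)) * ((y - x) + (z - y))| ≤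
        2 * s * ((y - x) + (z - y)) := by
      rw [e1, abs_le]
      constructor <;> nlinarith [ex.1, ex.2, ey.1, ey.2, ez.1, ez.2]
    rw [abs_mul, abs_mul, abs_of_pos hab] at e2
    have e3 : |d2| * |(y - x) * (z - y)| ≤ 2 * s := le_of_mul_le_mul_right e2 hab
    have e4 : w ^ 2 ≤ |(y - x) * (z - y)| := by
      rw [abs_of_pos (by nlinarith)]
      nlinarith
    exact (mul_le_mul_of_nonneg_left e4 (abs_nonneg _)).trans e3
  -- middle coefficient
  have k1 : |d1| * w ^ 2 ≤ 5 * s := by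
    have e1 : d1 * (y - x) = ((d0 + d1 * y + d2 * y ^ 2) - (d0 + d1 * x + d2 * x ^ 2)) -
        d2 * (x + y) * (y - x) := by ring
    have hyx : 0 < y - x := by linarith
    have e2 : |d1| * (y - x) ≤ 2 * s + |d2| * 2 * (y - x) := by
      rw [← abs_of_pos hyx, ← abs_mul, e1, abs_of_pos hyx]
      refine (abs_sub _ _).trans (add_le_add ?_ ?_)
      · rw [abs_le]; constructor <;> linarith [ex.1, ex.2, ey.1, ey.2]
      · rw [abs_mul, abs_mul, abs_of_pos hyx]
        refine mul_le_mul_of_nonneg_right (mul_le_mul_of_nonneg_left ?_ (abs_nonneg _)) hyx.le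
        exact (abs_add_le _ _).trans (by linarith)
    -- multiply by `w`
    have e3 : |d1| * w ≤ 2 * s + |d2| * 2 * w := by
      by_contra hcon
      push Not at hcon
      have : 2 * s < (|d1| - |d2| * 2) * w := by linarith
      have hpos : 0 < |d1| - |d2| * 2 := by
        by_contra h'
        nlinarith [not_lt.1 h']
      nlinarith
    nlinarith
  have k0 : |d0| * w ^ 2 ≤ 8 * s := by
    have e2 : |d0| ≤ s + |d1| + |d2| := by
      have e1 : d0 = (d0 + d1 * x + d2 * x ^ 2) - d1 * x - d2 * x ^ 2 := by ring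
      calc |d0| = |(d0 + d1 * x + d2 * x ^ 2) - d1 * x - d2 * x ^ 2| := by rw [← e1]
        _ ≤ |(d0 + d1 * x + d2 * x ^ 2) - d1 * x| + |d2 * x ^ 2| := abs_sub _ _
        _ ≤ |d0 + d1 * x + d2 * x ^ 2| + |d1 * x| + |d2 * x ^ 2| := by
          gcongr; exact abs_sub _ _
        _ ≤ s + |d1| + |d2| := by
          rw [abs_mul, abs_mul, abs_pow]
          have a1 : |d0 + d1 * x + d2 * x ^ 2| ≤ s := abs_le.2 ex
          have a2 : |d1| * |x| ≤ |d1| := mul_le_of_le_one_right (abs_nonneg _) hx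
          have a3 : |d2| * |x| ^ 2 ≤ |d2| :=
            mul_le_of_le_one_right (abs_nonneg _) (pow_le_one₀ (abs_nonneg _) hx)
          linarith
    have hw3 : w ^ 2 ≤ 1 := by nlinarith
    nlinarith [abs_nonneg d0, mul_le_mul_of_nonneg_right e2 (sq_nonneg w)]
  simp only [Nm]
  rcases max_cases |d0| (max |d1| |d2|) with h | h
  · rw [h.1]; exact k0
  · rw [h.1]
    rcases max_cases |d1| |d2| with h' | h'
    · rw [h'.1]; linarith
    · rw [h'.1]; linarith

theorem sua : SuaStmt := by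
  refine ⟨12, by norm_num, ?_⟩
  intro d s hs hN
  obtain ⟨E, hE⟩ : ∃ E : Set ℝ, E = {x | x ∈ Icc (-1 : ℝ) 1 ∧ |ev d x| ≤ s} := ⟨_, rfl⟩
  rw [← hE]
  have hcont : Continuous fun x => |ev d x| := by
    simp only [ev]
    fun_prop
  have hEc : IsCompact E := by
    rw [hE]
    exact isCompact_Icc.inter_right (isClosed_le hcont continuous_const)
  have hEsub : E ⊆ Icc (-1) 1 := by rw [hE]; exact fun x hx => hx.1
  have hfin : volume E ≠ ⊤ := hEc.measure_lt_top.ne
  rcases eq_or_ne (volume E) 0 with h0 | h0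
  · rw [h0]; exact zero_le
  obtain ⟨v, hv⟩ : ∃ v : ℝ, v = (volume E).toReal := ⟨_, rfl⟩
  have hv0 : 0 < v := by rw [hv]; exact ENNReal.toReal_pos h0 hfin
  have hvE : volume E = ENNReal.ofReal v := by rw [hv, ENNReal.ofReal_toReal hfin]
  have hv2 : v ≤ 2 := by
    have h1 : volume E ≤ volume (Icc (-1 : ℝ) 1) := measure_mono hEsub
    rw [Real.volume_Icc, hvE] at h1
    have := (ENNReal.ofReal_le_ofReal_iff (by norm_num)).1 h1
    linarith
  have hne : E.Nonempty := by
    by_contra h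
    rw [Set.not_nonempty_iff_eq_empty] at h
    rw [h, measure_empty] at h0
    exact h0 rfl
  obtain ⟨x, hx⟩ := hEc.exists_isLeast hne
  obtain ⟨z, hz⟩ := hEc.exists_isGreatest hne
  obtain ⟨y, hy, hyn⟩ : ∃ y ∈ E, y ∉ Icc x (x + v / 4) ∪ Icc (z - v / 4) z := by
    by_contra hcon
    push Not at hcon
    have h1 : volume E ≤ volume (Icc x (x + v / 4)) + volume (Icc (z - v / 4) z) :=
      (measure_mono (fun y hy => hcon y hy)).trans (measure_union_le _ _)
    rw [Real.volume_Icc, Real.volume_Icc, hvE, ← ENNReal.ofReal_add (by linarith) (by linarith)]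
      at h1
    have := (ENNReal.ofReal_le_ofReal_iff (by linarith)).1 h1
    linarith
  have hxy := hx.2 hy
  have hyz := hz.2 hy
  have h1 : v / 4 ≤ y - x := by
    by_contra h
    exact hyn (Or.inl ⟨hxy, by linarith⟩)
  have h2 : v / 4 ≤ z - y := by
    by_contra h
    exact hyn (Or.inr ⟨by linarith, hyz⟩)
  have hxE := hx.1
  have hzE := hz.1
  rw [hE] at hxE hzE hy
  have key := coef d s (v / 4) x y z hs (by linarith) (by linarith)
    (abs_le.2 ⟨hxE.1.1, hxE.1.2⟩) (abs_le.2 ⟨hy.1.1, hy.1.2⟩) h1 h2 hxE.2 hy.2 hzE.2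
  rw [hvE]
  apply ENNReal.ofReal_le_ofReal
  have h3 : (v / 12) ^ 2 ≤ s / Nm d := by
    rw [le_div_iff₀ hN]
    nlinarith
  have h4 : v / 12 ≤ Real.sqrt (s / Nm d) := Real.le_sqrt_of_sq_le h3
  linarith

end Pool.Agent.CRT.H37
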